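import Mathlib

/-!
# MP_5f67f4: lexicographic initial segments and the deletion shadow of words

For `r = 4`, `n = 3` and the signature `s = (1,0,1,1)` the family `F_s` has 36 words and
deletion shadow of size 13, while `[3] × [3] × [4]` has 36 words and deletion shadow
`[3] × [4]` of size 12.  For `r = 3`, `n = 4` and the signature `s = (1,1,2)` the family `F_s`
has 32 words and deletion shadow of size 17, while `[2] × [2] × ([3]² ∖ {33})` has 32 words and
deletion shadow `[2] × ([3]² ∖ {33})` of size 16.
-/

namespace Pool.Agent.Results.MP_5f67f4_co.SmallerShadow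

/-- Words of length `n` over an alphabet of `r` letters (`0, …, r-1` instead of `1, …, r`). -/
abbrev Word (r n : ℕ) := Fin n → Fin r

/-- The word obtained from `w` by deleting the letter at position `i`. -/
def del {r n : ℕ} (w : Word r (n + 1)) (i : Fin (n + 1)) : Word r n := fun j => w (i.succAbove j)

/-- The deletion shadow of a family of words. -/
def shadow {r n : ℕ} (F : Finset (Word r (n + 1))) : Finset (Word r n) :=
  Finset.univ.filter fun v => ∃ w ∈ F, ∃ i, v = del w i

/-- `F` has minimal deletion shadow given its size. -/
def MinimalShadow {r n : ℕ} (F : Finset (Word r (n + 1))) : Prop :=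
  ∀ G : Finset (Word r (n + 1)), G.card = F.card → (shadow F).card ≤ (shadow G).card

/-- The signature of a word: the number of occurrences of the largest letter comes first. -/
def sig {r n : ℕ} (w : Word r n) : Fin r → ℕ := fun j =>
  (Finset.univ.filter fun i => w i = Fin.rev j).card

/-- Lexicographic order of signatures. -/
def LexLE {r : ℕ} (p q : Fin r → ℕ) : Prop :=
  p = q ∨ ∃ i, p i < q i ∧ ∀ j, j < i → p j = q j

instance {r : ℕ} (p q : Fin r → ℕ) : Decidable (LexLE p q) := by
  unfold LexLE; infer_instance

/-- The initial segment `F_s` of the words with signature at most `s`. -/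
def initialSegment {r : ℕ} (n : ℕ) (s : Fin r → ℕ) : Finset (Word r (n + 1)) :=
  Finset.univ.filter fun w => LexLE (sig w) s

/-- the better family `[3] × [3] × [4]` -/
def better : Finset (Word 4 3) := Finset.univ.filter fun w => w 0 ≠ 3 ∧ w 1 ≠ 3

theorem card_seg : (initialSegment (r := 4) 2 ![1, 0, 1, 1]).card = 36 := by
  decide +kernel

theorem card_better : better.card = 36 := by
  decide +kernel

theorem card_shadow_seg : (shadow (initialSegment (r := 4) 2 ![1, 0, 1, 1])).card = 13 := by
  decide +kernel

theorem card_shadow_better : (shadow better).card = 12 := by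
  decide +kernel

/-- the better family `[2] × [2] × ([3]² ∖ {33})` -/
def better3 : Finset (Word 3 4) :=
  Finset.univ.filter fun w => w 0 ≠ 2 ∧ w 1 ≠ 2 ∧ ¬ (w 2 = 2 ∧ w 3 = 2)

theorem card_seg3 : (initialSegment (r := 3) 3 ![1, 1, 2]).card = 32 := by
  decide +kernel

theorem card_better3 : better3.card = 32 := by
  decide +kernel

theorem card_shadow_seg3 : (shadow (initialSegment (r := 3) 3 ![1, 1, 2])).card = 17 := by
  decide +kernel

theorem card_shadow_better3 : (shadow better3).card = 16 := by
  decide +kernel

/-- **Q1 is false**: for `r = 4`, words of length 3 and the signature `(1,0,1,1)`, the initial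
segment `F_s` (36 words, shadow of size 13) does not have minimal deletion shadow: a family of
36 words has a shadow of size 12.  It also fails for three letters: for `r = 3`, words of length
4 and the signature `(1,1,2)`, `F_s` has 32 words and shadow of size 17, and a family of 32
words has a shadow of size 16. -/
theorem result :
    (∃ G : Finset (Word 4 3), G.card = (initialSegment (r := 4) 2 ![1, 0, 1, 1]).card ∧
      (shadow G).card < (shadow (initialSegment (r := 4) 2 ![1, 0, 1, 1])).card) ∧
    (∃ G : Finset (Word 3 4), G.card = (initialSegment (r := 3) 3 ![1, 1, 2]).card ∧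
      (shadow G).card < (shadow (initialSegment (r := 3) 3 ![1, 1, 2])).card) ∧
    ¬ ∀ (r n : ℕ), 2 ≤ r → ∀ s : Fin r → ℕ, ∑ i, s i = n + 1 →
      MinimalShadow (initialSegment n s) := by
  have h : better.card = (initialSegment (r := 4) 2 ![1, 0, 1, 1]).card ∧
      (shadow better).card < (shadow (initialSegment (r := 4) 2 ![1, 0, 1, 1])).card := by
    rw [card_better, card_seg, card_shadow_better, card_shadow_seg]
    decide
  have h3 : better3.card = (initialSegment (r := 3) 3 ![1, 1, 2]).card ∧
      (shadow better3).card < (shadow (initialSegment (r := 3) 3 ![1, 1, 2])).card := by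
    rw [card_better3, card_seg3, card_shadow_better3, card_shadow_seg3]
    decide
  refine ⟨⟨better, h⟩, ⟨better3, h3⟩, fun H => ?_⟩
  have := H 4 2 (by norm_num) ![1, 0, 1, 1] (by decide) better h.1
  omega

end Pool.Agent.Results.MP_5f67f4_co.SmallerShadow
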